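import Pool.Agent.H529R2.MF.Defs

/-!
# Building circuits
-/

namespace Pool.Agent.H529R2.MF

open Finset

variable {α β : Type}

theorem Wires.subset {A : Set (α → Bool)} {s t : ℕ} {B : Set (α → Bool)} (h : Wires A s t B) :
    A ⊆ B := by
  induction h with
  | start => exact fun _ h => h
  | and _ _ _ ih => exact fun _ h => Set.mem_insert_of_mem _ (ih h)
  | or _ _ _ ih => exact fun _ h => Set.mem_insert_of_mem _ (ih h)
  | not _ _ ih => exact fun _ h => Set.mem_insert_of_mem _ (ih h)

theorem Wires.trans {A B C : Set (α → Bool)} {s t s' t' : ℕ} (h : Wires A s t B)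
    (h' : Wires B s' t' C) : Wires A (s + s') (t + t') C := by
  induction h' with
  | start => exact h
  | and _ h1 h2 ih => exact Wires.and ih h1 h2
  | or _ h1 h2 ih => exact Wires.or ih h1 h2
  | not _ h1 ih => exact Wires.not ih h1

/-- A circuit over `A` can be built over `A'` with its inputs composed with `ψ`. -/
theorem Wires.map {A B : Set (α → Bool)} {s t : ℕ} (h : Wires A s t B) (ψ : β → α)
    {A' : Set (β → Bool)} (hA : ∀ f ∈ A, (fun x => f (ψ x)) ∈ A') :
    ∃ B', Wires A' s t B' ∧ ∀ f ∈ B, (fun x => f (ψ x)) ∈ B' := by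
  induction h with
  | start => exact ⟨A', Wires.start, hA⟩
  | and _ h1 h2 ih =>
    obtain ⟨B', hB', hB⟩ := ih
    refine ⟨_, Wires.and hB' (hB _ h1) (hB _ h2), ?_⟩
    rintro f (rfl | hf)
    · exact Set.mem_insert _ _
    · exact Set.mem_insert_of_mem _ (hB f hf)
  | or _ h1 h2 ih =>
    obtain ⟨B', hB', hB⟩ := ih
    refine ⟨_, Wires.or hB' (hB _ h1) (hB _ h2), ?_⟩
    rintro f (rfl | hf)
    · exact Set.mem_insert _ _
    · exact Set.mem_insert_of_mem _ (hB f hf)
  | not _ h1 ih =>
    obtain ⟨B', hB', hB⟩ := ih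
    refine ⟨_, Wires.not hB' (hB _ h1), ?_⟩
    rintro f (rfl | hf)
    · exact Set.mem_insert _ _
    · exact Set.mem_insert_of_mem _ (hB f hf)

/-- Given the functions in `A`, those in `S` can be computed with at most `s` AND and OR gates and
at most `t` NOT gates. -/
def Can (A : Set (α → Bool)) (s t : ℕ) (S : Set (α → Bool)) : Prop :=
  ∃ s' ≤ s, ∃ t' ≤ t, ∃ B, Wires A s' t' B ∧ S ⊆ B

theorem comp_iff {m s t : ℕ} {f : (Fin m → Bool) → Bool} : Comp s t f ↔ Can (coords m) s t {f} := by
  unfold Comp Can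
  simp only [Set.singleton_subset_iff]

theorem can_refl (A : Set (α → Bool)) : Can A 0 0 A :=
  ⟨0, le_rfl, 0, le_rfl, A, Wires.start, subset_rfl⟩

theorem Can.mono {A A' : Set (α → Bool)} {s s' t t' : ℕ} {S S' : Set (α → Bool)}
    (h : Can A s t S) (hA : A ⊆ A') (hs : s ≤ s') (ht : t ≤ t') (hS : S' ⊆ S) :
    Can A' s' t' S' := by
  obtain ⟨a, ha, b, hb, B, hB, hSB⟩ := h
  obtain ⟨B', hB', hBB⟩ := hB.map (fun x => x) (A' := A') (fun f hf => hA hf)
  exact ⟨a, ha.trans hs, b, hb.trans ht, B', hB', fun f hf => hBB f (hSB (hS hf))⟩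

theorem Can.trans {A : Set (α → Bool)} {s s' t t' : ℕ} {S S' : Set (α → Bool)}
    (h : Can A s t S) (h' : Can (A ∪ S) s' t' S') : Can A (s + s') (t + t') (S ∪ S') := by
  obtain ⟨a, ha, b, hb, B, hB, hSB⟩ := h
  have h1 : A ∪ S ⊆ B := Set.union_subset hB.subset hSB
  obtain ⟨a', ha', b', hb', B', hB', hSB'⟩ := h'.mono h1 le_rfl le_rfl subset_rfl
  exact ⟨a + a', by omega, b + b', by omega, B', hB.trans hB',
    Set.union_subset (hSB.trans hB'.subset) hSB'⟩

theorem Can.union {A : Set (α → Bool)} {s s' t t' : ℕ} {S S' : Set (α → Bool)}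
    (h : Can A s t S) (h' : Can A s' t' S') : Can A (s + s') (t + t') (S ∪ S') :=
  h.trans (h'.mono Set.subset_union_left le_rfl le_rfl subset_rfl)

theorem can_empty (A : Set (α → Bool)) : Can A 0 0 ∅ :=
  (can_refl A).mono subset_rfl le_rfl le_rfl (Set.empty_subset _)

theorem can_iUnion {A : Set (α → Bool)} {s t : ℕ} : ∀ {n : ℕ} {S : Fin n → Set (α → Bool)},
    (∀ i, Can A s t (S i)) → Can A (n * s) (n * t) (⋃ i, S i)
  | 0, S, _ => by simpa using can_empty A
  | n + 1, S, h => by
    have h1 := can_iUnion (n := n) (S := fun i => S i.castSucc) (fun i => h _)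
    refine (h1.union (h (Fin.last n))).mono subset_rfl (by ring_nf; rfl) (by ring_nf; rfl) ?_
    intro f hf
    obtain ⟨i, hi⟩ := Set.mem_iUnion.1 hf
    induction i using Fin.lastCases with
    | last => exact Or.inr hi
    | cast i => exact Or.inl (Set.mem_iUnion.2 ⟨i, hi⟩)

theorem can_and {A : Set (α → Bool)} {f g : α → Bool} (hf : f ∈ A) (hg : g ∈ A) :
    Can A 1 0 {fun x => f x && g x} :=
  ⟨1, le_rfl, 0, le_rfl, _, Wires.and Wires.start hf hg, by simp⟩

theorem can_or {A : Set (α → Bool)} {f g : α → Bool} (hf : f ∈ A) (hg : g ∈ A) :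
    Can A 1 0 {fun x => f x || g x} :=
  ⟨1, le_rfl, 0, le_rfl, _, Wires.or Wires.start hf hg, by simp⟩

theorem can_not {A : Set (α → Bool)} {f : α → Bool} (hf : f ∈ A) :
    Can A 0 1 {fun x => !(f x)} :=
  ⟨0, le_rfl, 1, le_rfl, _, Wires.not Wires.start hf, by simp⟩

theorem Can.map {A : Set (α → Bool)} {s t : ℕ} {S : Set (α → Bool)} (h : Can A s t S)
    (ψ : β → α) {A' : Set (β → Bool)} (hA : ∀ f ∈ A, (fun x => f (ψ x)) ∈ A') :
    Can A' s t ((fun f x => f (ψ x)) '' S) := by
  obtain ⟨a, ha, b, hb, B, hB, hSB⟩ := h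
  obtain ⟨B', hB', hBB⟩ := hB.map ψ hA
  refine ⟨a, ha, b, hb, B', hB', ?_⟩
  rintro _ ⟨f, hf, rfl⟩
  exact hBB f (hSB hf)

/-- Chaining: if `S` can be computed from `A` and the single function `g` from `A ∪ S`. -/
theorem Can.single {A : Set (α → Bool)} {s s' t t' : ℕ} {S : Set (α → Bool)} {g : α → Bool}
    (h : Can A s t S) (h' : Can (A ∪ S) s' t' {g}) : Can A (s + s') (t + t') {g} :=
  (h.trans h').mono subset_rfl le_rfl le_rfl Set.subset_union_right

/-- The number of members of a family which are true. -/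
def cnt {N : ℕ} (F : Fin N → α → Bool) (x : α) : ℕ := (univ.filter fun i => F i x = true).card

theorem cnt_succ {N : ℕ} (F : Fin (N + 1) → α → Bool) (x : α) :
    cnt F x = (if F 0 x = true then 1 else 0) + cnt (fun i => F i.succ) x := by
  unfold cnt
  rw [card_filter, card_filter, Fin.sum_univ_succ]

theorem cnt_le {N : ℕ} (F : Fin N → α → Bool) (x : α) : cnt F x ≤ N := by
  unfold cnt
  exact (card_filter_le _ _).trans (by simp)

/-- The thresholds of a family. -/
def thrs {N : ℕ} (F : Fin N → α → Bool) : Set (α → Bool) :=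
  {g | ∃ t, 1 ≤ t ∧ t ≤ N ∧ g = fun x => decide (t ≤ cnt F x)}

/-- All thresholds of `N` functions can be computed with `2 N²` monotone gates. -/
theorem can_thrs {A : Set (α → Bool)} : ∀ {N : ℕ} (F : Fin N → α → Bool), (∀ i, F i ∈ A) →
    Can A (2 * N * N) 0 (thrs F)
  | 0, F, _ => by
    refine (can_empty A).mono subset_rfl (Nat.zero_le _) le_rfl ?_
    rintro g ⟨t, h1, h2, -⟩
    omega
  | N + 1, F, hF => by
    have ih := can_thrs (fun i : Fin N => F i.succ) (fun i => hF _)
    have key : ∀ j : Fin (N + 1), Can (A ∪ thrs fun i : Fin N => F i.succ) 2 0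
        {fun x => decide ((j : ℕ) + 1 ≤ cnt F x)} := by
      intro j
      have hA0 : F 0 ∈ A ∪ thrs fun i : Fin N => F i.succ := Or.inl (hF 0)
      have hT : ∀ t, 1 ≤ t → t ≤ N → (fun x => decide (t ≤ cnt (fun i : Fin N => F i.succ) x)) ∈
          A ∪ thrs fun i : Fin N => F i.succ := fun t h1 h2 => Or.inr ⟨t, h1, h2, rfl⟩
      have hj := j.2
      by_cases h0 : (j : ℕ) = 0
      · by_cases hN : N = 0
        · have e : (fun x => decide ((j : ℕ) + 1 ≤ cnt F x)) = F 0 := by
            funext x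
            rw [cnt_succ]
            have := cnt_le (fun i : Fin N => F i.succ) x
            cases F 0 x <;> simp <;> omega
          rw [e]
          exact (can_refl _).mono subset_rfl (by omega) le_rfl
            (Set.singleton_subset_iff.2 hA0)
        · have e : (fun x => decide ((j : ℕ) + 1 ≤ cnt F x)) =
              fun x => F 0 x || decide (1 ≤ cnt (fun i : Fin N => F i.succ) x) := by
            funext x
            rw [cnt_succ, h0]
            cases F 0 x <;> simp
          rw [e]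
          exact (can_or hA0 (hT 1 le_rfl (by omega))).mono subset_rfl (by omega) le_rfl subset_rfl
      · by_cases hN : (j : ℕ) = N
        · have e : (fun x => decide ((j : ℕ) + 1 ≤ cnt F x)) =
              fun x => F 0 x && decide (N ≤ cnt (fun i : Fin N => F i.succ) x) := by
            funext x
            rw [cnt_succ, hN]
            have := cnt_le (fun i : Fin N => F i.succ) x
            cases F 0 x <;> simp <;> omega
          rw [e]
          exact (can_and hA0 (hT N (by omega) le_rfl)).mono subset_rfl (by omega) le_rfl subset_rfl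
        · have e : (fun x => decide ((j : ℕ) + 1 ≤ cnt F x)) =
              fun x => (F 0 x && decide ((j : ℕ) ≤ cnt (fun i : Fin N => F i.succ) x)) ||
                decide ((j : ℕ) + 1 ≤ cnt (fun i : Fin N => F i.succ) x) := by
            funext x
            rw [cnt_succ]
            cases F 0 x
            · simp
            · by_cases h : (j : ℕ) ≤ cnt (fun i : Fin N => F i.succ) x
              · simp only [if_true, Bool.true_and, decide_eq_true h, Bool.true_or]
                rw [decide_eq_true_iff]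
                omega
              · have h1 : ¬ ((j : ℕ) + 1 ≤ 1 + cnt (fun i : Fin N => F i.succ) x) := by omega
                have h2 : ¬ ((j : ℕ) + 1 ≤ cnt (fun i : Fin N => F i.succ) x) := by omega
                simp only [if_true, Bool.true_and, decide_eq_false h, Bool.false_or,
                  decide_eq_false h1, decide_eq_false h2]
          rw [e]
          refine ((can_and hA0 (hT j (by omega) (by omega))).single
            (can_or (Or.inr rfl) (Or.inl (hT (j + 1) (by omega) (by omega))))).mono subset_rfl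
            (by omega) le_rfl subset_rfl
    refine (ih.trans (can_iUnion key)).mono subset_rfl ?_ (by omega) ?_
    · nlinarith
    · rintro g ⟨t, h1, h2, rfl⟩
      refine Or.inr (Set.mem_iUnion.2 ⟨⟨t - 1, by omega⟩, ?_⟩)
      simp only [Set.mem_singleton_iff]
      have : t - 1 + 1 = t := by omega
      rw [this]

/-- Berkowitz's simulation: if on the set `X` every input and its negation are computed by
functions in `A'`, then so are all wires and their negations, with two monotone gates for every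
gate. -/
theorem Wires.double {A B : Set (α → Bool)} {s t : ℕ} (h : Wires A s t B) (ψ : β → α)
    (X : Set β) {A' : Set (β → Bool)}
    (hA : ∀ f ∈ A, ∃ p ∈ A', ∃ n ∈ A', ∀ x ∈ X, p x = f (ψ x) ∧ n x = !(f (ψ x))) :
    ∃ B', Wires A' (2 * s) 0 B' ∧
      ∀ f ∈ B, ∃ p ∈ B', ∃ n ∈ B', ∀ x ∈ X, p x = f (ψ x) ∧ n x = !(f (ψ x)) := by
  induction h with
  | start => exact ⟨A', Wires.start, hA⟩
  | and _ h1 h2 ih =>
    obtain ⟨B', hB', hB⟩ := ih
    obtain ⟨p1, hp1, n1, hn1, e1⟩ := hB _ h1
    obtain ⟨p2, hp2, n2, hn2, e2⟩ := hB _ h2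
    refine ⟨_, Wires.or (Wires.and hB' hp1 hp2) (Set.mem_insert_of_mem _ hn1)
      (Set.mem_insert_of_mem _ hn2), ?_⟩
    rintro f (rfl | hf)
    · refine ⟨_, Set.mem_insert_of_mem _ (Set.mem_insert _ _), _, Set.mem_insert _ _, ?_⟩
      intro x hx
      rw [(e1 x hx).1, (e1 x hx).2, (e2 x hx).1, (e2 x hx).2, Bool.not_and]
      exact ⟨rfl, rfl⟩
    · obtain ⟨p, hp, n, hn, e⟩ := hB f hf
      exact ⟨p, Set.mem_insert_of_mem _ (Set.mem_insert_of_mem _ hp), n,
        Set.mem_insert_of_mem _ (Set.mem_insert_of_mem _ hn), e⟩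
  | or _ h1 h2 ih =>
    obtain ⟨B', hB', hB⟩ := ih
    obtain ⟨p1, hp1, n1, hn1, e1⟩ := hB _ h1
    obtain ⟨p2, hp2, n2, hn2, e2⟩ := hB _ h2
    refine ⟨_, Wires.and (Wires.or hB' hp1 hp2) (Set.mem_insert_of_mem _ hn1)
      (Set.mem_insert_of_mem _ hn2), ?_⟩
    rintro f (rfl | hf)
    · refine ⟨_, Set.mem_insert_of_mem _ (Set.mem_insert _ _), _, Set.mem_insert _ _, ?_⟩
      intro x hx
      rw [(e1 x hx).1, (e1 x hx).2, (e2 x hx).1, (e2 x hx).2, Bool.not_or]
      exact ⟨rfl, rfl⟩
    · obtain ⟨p, hp, n, hn, e⟩ := hB f hf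
      exact ⟨p, Set.mem_insert_of_mem _ (Set.mem_insert_of_mem _ hp), n,
        Set.mem_insert_of_mem _ (Set.mem_insert_of_mem _ hn), e⟩
  | not _ h1 ih =>
    obtain ⟨B', hB', hB⟩ := ih
    obtain ⟨p1, hp1, n1, hn1, e1⟩ := hB _ h1
    refine ⟨B', hB', ?_⟩
    rintro f (rfl | hf)
    · refine ⟨n1, hn1, p1, hp1, ?_⟩
      intro x hx
      rw [(e1 x hx).1, (e1 x hx).2, Bool.not_not]
      exact ⟨rfl, rfl⟩
    · exact hB f hf

end Pool.Agent.H529R2.MF
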