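import Pool.Agent.H529R2.MF.Slice

/-!
# The two monotone tests attached to a circuit that rejects all blocks
-/

namespace Pool.Agent.H529R2.MF

open Finset

theorem win_append {b k r : ℕ} (u : Fin (b * k) → Bool) (v : Fin r → Bool) (j : Fin b) :
    win k (j * k) (Fin.append u v) = blk u j := by
  funext a
  have hj := j.2
  have ha := a.2
  have h1 : (j : ℕ) * k + a < b * k := by
    have h2 : ((j : ℕ) + 1) * k ≤ b * k := Nat.mul_le_mul_right k hj
    nlinarith
  unfold win blk
  rw [dif_pos (by omega)]
  have e : (⟨(j : ℕ) * k + a, by omega⟩ : Fin (b * k + r)) =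
      Fin.castAdd r (finProdFinEquiv (j, a)) := by
    ext
    simp [finProdFinEquiv]
    ring
  rw [e, Fin.append_left]

theorem card_win {m b k : ℕ} (h : b * k ≤ m) (P : (Fin b → Fin k → Bool) → Prop)
    [DecidablePred P] :
    (univ.filter fun x : Fin m → Bool => P fun j => win k (j * k) x).card =
      (univ.filter P).card * 2 ^ (m - b * k) := by
  obtain ⟨r, rfl⟩ := Nat.exists_eq_add_of_le h
  rw [Nat.add_sub_cancel_left, ← card_blk b k P]
  have h1 : ((univ.filter fun u : Fin (b * k) → Bool => P (blk u)) ×ˢ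
      (univ : Finset (Fin r → Bool))).card =
      (univ.filter fun u : Fin (b * k) → Bool => P (blk u)).card * 2 ^ r := by
    rw [card_product]
    simp
  rw [← h1]
  symm
  refine card_equiv (Fin.appendEquiv (b * k) r) fun p => ?_
  rw [mem_product, mem_filter, mem_filter]
  have e : (fun j : Fin b => win k (j * k) (Fin.appendEquiv (b * k) r p)) = blk p.1 := by
    funext j
    exact win_append p.1 p.2 j
  rw [e]
  simp

/-- Tail bound for sums over windows. -/
theorem tail_win {m b k Q : ℕ} (h : b * k ≤ m) (z : (Fin k → Bool) → ℝ) {δ : ℝ}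
    (hz : ∀ y, |z y| ≤ 1) (hδ : 0 ≤ δ) (hm : δ * 2 ^ k ≤ ∑ y, z y)
    (hQ : (Q : ℝ) ≤ b * (δ ^ 2 / 4)) :
    (univ.filter fun x : Fin m → Bool => ∑ j : Fin b, z (win k (j * k) x) ≤ 0).card * 2 ^ Q ≤
      2 ^ m := by
  have h1 := tail_two z (B := 1) one_pos hz hδ (by simpa using hm) b Q (by simpa using hQ)
  have h2 := card_win h (fun r : Fin b → Fin k → Bool => ∑ j, z (r j) ≤ 0)
  rw [h2]
  have h3 : Fintype.card (Fin k → Bool) ^ b = 2 ^ (b * k) := by
    simp only [Fintype.card_fun, Fintype.card_bool, Fintype.card_fin]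
    rw [← pow_mul, mul_comm]
  rw [h3] at h1
  calc (univ.filter fun r : Fin b → Fin k → Bool => ∑ j, z (r j) ≤ 0).card * 2 ^ (m - b * k) *
        2 ^ Q = ((univ.filter fun r : Fin b → Fin k → Bool => ∑ j, z (r j) ≤ 0).card * 2 ^ Q) *
        2 ^ (m - b * k) := by ring
    _ ≤ 2 ^ (b * k) * 2 ^ (m - b * k) := Nat.mul_le_mul_right _ h1
    _ = 2 ^ m := by rw [← pow_add, Nat.add_sub_cancel' h]

/-- The number of strings of length `u n` all of whose windows are rejected. -/
theorem card_allRej {n u : ℕ} (C : (Fin n → Bool) → Bool)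
    (hC : 2 * (univ.filter fun y => C y = false).card ≤ 2 ^ n) :
    (univ.filter fun y : Fin (u * n) → Bool => allRej n u C y = true).card * 2 ^ u ≤
      2 ^ (u * n) := by
  have h1 : (univ.filter fun y : Fin (u * n) → Bool => allRej n u C y = true) =
      univ.filter fun y : Fin (u * n) → Bool => ∀ i : Fin u, C (win n (i * n) y) = false := by
    apply filter_congr
    intro y _
    rw [allRej_eq_true]
    exact ⟨fun h i => h i i.2, fun h i hi => h ⟨i, hi⟩⟩
  have h0 : (univ.filter fun y : Fin (u * n) → Bool =>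
      ∀ i : Fin u, C (win n (i * n) y) = false).card =
      (univ.filter fun r : Fin u → Fin n → Bool => ∀ i, C (r i) = false).card *
        2 ^ (u * n - u * n) :=
    card_win le_rfl (fun r : Fin u → Fin n → Bool => ∀ i, C (r i) = false)
  rw [h1, h0, Nat.sub_self, pow_zero, mul_one]
  have h2 : (univ.filter fun r : Fin u → Fin n → Bool => ∀ i, C (r i) = false) =
      Fintype.piFinset fun _ : Fin u => univ.filter fun y => C y = false := by
    ext r
    simp
  rw [h2, Fintype.card_piFinset, prod_const, card_univ, Fintype.card_fin, ← mul_pow, mul_comm u n,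
    pow_mul]
  exact Nat.pow_le_pow_left (by omega) u

section

variable {h : ℕ}

/-- The number of strings with more than `h` ones. -/
def above (h : ℕ) : ℕ := (univ.filter fun y : Fin (2 * h) → Bool => h + 1 ≤ wt y).card

/-- The number of strings with exactly `h` ones. -/
def mid (h : ℕ) : ℕ := (univ.filter fun y : Fin (2 * h) → Bool => wt y = h).card

theorem two_pow_le_mid (hh : 1 ≤ h) : 2 ^ (2 * h) ≤ 2 * h * mid h := by
  have h1 := middle_card h hh
  have h2 : (univ.filter fun s : Fin (2 * h) → Bool => 2 * wt s = 2 * h).card = mid h := by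
    unfold mid
    congr 1
    apply filter_congr
    intro y _
    omega
  rwa [h2] at h1

theorem above_add_mid_le : above h + mid h ≤ 2 ^ (2 * h) := by
  unfold above mid
  rw [← card_union_of_disjoint]
  · exact (card_le_univ _).trans (by simp)
  · rw [disjoint_left]
    intro y h1 h2
    rw [mem_filter] at h1 h2
    omega

/-- The threshold per block. -/
noncomputable def tau (h : ℕ) : ℝ := (above h + mid h / 2) / 2 ^ (2 * h)

theorem tau_pos (hh : 1 ≤ h) : 0 < tau h := by
  have h1 := two_pow_le_mid hh
  have h2 : 0 < mid h := by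
    rcases Nat.eq_zero_or_pos (mid h) with h3 | h3
    · rw [h3, mul_zero] at h1
      exact absurd h1 (not_le.2 (by positivity))
    · exact h3
  unfold tau
  have : (0 : ℝ) < mid h := by exact_mod_cast h2
  positivity

theorem tau_lt (hh : 1 ≤ h) : tau h < 1 := by
  have h1 := two_pow_le_mid hh
  have h2 : 0 < mid h := by
    rcases Nat.eq_zero_or_pos (mid h) with h3 | h3
    · rw [h3, mul_zero] at h1
      exact absurd h1 (not_le.2 (by positivity))
    · exact h3
  have h3 : ((above h + mid h : ℕ) : ℝ) ≤ ((2 ^ (2 * h) : ℕ) : ℝ) := by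
    exact_mod_cast above_add_mid_le
  push_cast at h3
  have : (0 : ℝ) < mid h := by exact_mod_cast h2
  unfold tau
  rw [div_lt_one (by positivity)]
  linarith

theorem sum_high : ∑ y : Fin (2 * h) → Bool,
    ((if h ≤ wt y then (1 : ℝ) else 0) - tau h) = mid h / 2 := by
  rw [sum_sub_distrib]
  have h1 : (∑ y : Fin (2 * h) → Bool, if h ≤ wt y then (1 : ℝ) else 0) = above h + mid h := by
    have h2 : ∀ y : Fin (2 * h) → Bool, (if h ≤ wt y then (1 : ℝ) else 0) =
        (if h + 1 ≤ wt y then (1 : ℝ) else 0) + if wt y = h then (1 : ℝ) else 0 := by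
      intro y
      by_cases h3 : h + 1 ≤ wt y
      · rw [if_pos h3, if_pos (by omega), if_neg (by omega), add_zero]
      · by_cases h4 : wt y = h
        · rw [if_neg h3, if_pos (by omega), if_pos h4, zero_add]
        · rw [if_neg h3, if_neg (by omega), if_neg h4, zero_add]
    rw [sum_congr rfl fun y _ => h2 y, sum_add_distrib]
    simp [above, mid]
  rw [h1]
  simp only [sum_const, card_univ, Fintype.card_fun, Fintype.card_bool, Fintype.card_fin,
    nsmul_eq_mul]
  unfold tau
  push_cast
  field_simp
  ring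

theorem sum_low (f : (Fin (2 * h) → Bool) → Bool) : (mid h : ℝ) / 2 -
    (univ.filter fun y => f y = true).card ≤ ∑ y : Fin (2 * h) → Bool,
    (tau h - if phi h f y = true then (1 : ℝ) else 0) := by
  rw [sum_sub_distrib]
  have h1 : (∑ y : Fin (2 * h) → Bool, if phi h f y = true then (1 : ℝ) else 0) ≤
      above h + (univ.filter fun y => f y = true).card := by
    have h2 : ∀ y : Fin (2 * h) → Bool, (if phi h f y = true then (1 : ℝ) else 0) ≤
        (if h + 1 ≤ wt y then (1 : ℝ) else 0) + if f y = true then (1 : ℝ) else 0 := by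
      intro y
      unfold phi
      by_cases h3 : h + 1 ≤ wt y <;> by_cases h4 : h ≤ wt y <;> cases f y <;> simp [h3, h4]
    refine (sum_le_sum fun y _ => h2 y).trans ?_
    rw [sum_add_distrib]
    simp [above]
  simp only [sum_const, card_univ, Fintype.card_fun, Fintype.card_bool, Fintype.card_fin,
    nsmul_eq_mul]
  have h3 : ((2 ^ (2 * h) : ℕ) : ℝ) * tau h = above h + mid h / 2 := by
    unfold tau
    push_cast
    field_simp
  rw [h3]
  linarith

end

theorem cnt_eq_sum {α : Type} {b : ℕ} (Φ : Fin b → α → Bool) (x : α) :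
    (cnt Φ x : ℝ) = ∑ j, if Φ j x = true then (1 : ℝ) else 0 := by
  unfold cnt
  rw [card_filter]
  push_cast
  rfl

/-- The core of the argument: a circuit that accepts half of its inputs and rejects many blocks
of all strings of a set gives two monotone functions that agree on this set, the first nearly
always `1` and the second nearly always `0`. -/
theorem core {m h b n u s t Q : ℕ} (hk : u * n = 2 * h) (hh : 1 ≤ h) (hu : 1 ≤ u) (hb : 1 ≤ b)
    (hbm : b * (2 * h) ≤ m) (hQ : 256 * h * h * Q ≤ b) (hhu : 8 * h ≤ 2 ^ u)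
    {C : (Fin n → Bool) → Bool} (hC : Comp s t C)
    (hrej : 2 * (univ.filter fun y => C y = false).card ≤ 2 ^ n) :
    ∃ g1 g0 : (Fin m → Bool) → Bool,
      Comp (b * (2 * (2 * h) * (2 * h)) + 2 * b * b) 0 g1 ∧
      Comp (b * (2 * (2 * h) * (2 * h) * (2 * h) + 2 * (2 * h) * (2 * h) +
        2 * (u * s + 2 * u * u) + 2) + 2 * b * b) 0 g0 ∧
      (∀ x, (∀ q < b * u, C (win n (q * n) x) = false) → g1 x = g0 x) ∧
      (univ.filter fun x => g1 x = false).card * 2 ^ Q ≤ 2 ^ m ∧
      (univ.filter fun x => g0 x = true).card * 2 ^ Q ≤ 2 ^ m := by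
  set f : (Fin (2 * h) → Bool) → Bool := allRej n u C with hf
  have hfC : Comp (u * s + 2 * u * u) (u * (t + 1)) f := comp_allRej hC hu hk.le
  have hfd : (univ.filter fun y => f y = true).card * (8 * h) ≤ 2 ^ (2 * h) := by
    have h1 := card_allRej (u := u) C hrej
    have h2 : (univ.filter fun y : Fin (2 * h) → Bool => f y = true).card * 2 ^ u ≤
        2 ^ (2 * h) := by
      rw [hf]
      rw [hk] at h1
      exact h1
    exact (Nat.mul_le_mul_left _ hhu).trans h2
  set θ : ℕ := ⌈(b : ℝ) * tau h⌉₊ with hθ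
  have hbpos : (0 : ℝ) < b := by exact_mod_cast hb
  have hhpos : (0 : ℝ) < h := by exact_mod_cast hh
  have hτ := tau_pos hh
  have hτ1 := tau_lt hh
  have h1θ : 1 ≤ θ := Nat.ceil_pos.2 (by positivity)
  have hθb : θ ≤ b := Nat.ceil_le.2 (by nlinarith)
  set Φ1 : Fin b → (Fin m → Bool) → Bool := fun j x => decide (h ≤ wt (win (2 * h) (j * (2 * h)) x))
    with hΦ1
  set Φ0 : Fin b → (Fin m → Bool) → Bool := fun j x => phi h f (win (2 * h) (j * (2 * h)) x)
    with hΦ0
  have hwin : ∀ j : Fin b, (j : ℕ) * (2 * h) + 2 * h ≤ m := by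
    intro j
    have h2 : ((j : ℕ) + 1) * (2 * h) ≤ b * (2 * h) := Nat.mul_le_mul_right _ j.2
    nlinarith
  have c1 : ∀ j, Can (coords m) (2 * (2 * h) * (2 * h)) 0 {Φ1 j} := by
    intro j
    refine (can_thrs (fun (i : Fin (2 * h)) (x : Fin m → Bool) =>
      win (2 * h) (j * (2 * h)) x i) fun i => win_mem_coords (hwin j) i).mono subset_rfl le_rfl
      le_rfl ?_
    rw [Set.singleton_subset_iff]
    exact ⟨h, hh, by omega, rfl⟩
  have c0 : ∀ j, Can (coords m) (2 * (2 * h) * (2 * h) * (2 * h) + 2 * (2 * h) * (2 * h) +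
      2 * (u * s + 2 * u * u) + 2) 0 {Φ0 j} := fun j =>
    can_phi (fun x : Fin m → Bool => win (2 * h) (j * (2 * h)) x)
      (fun i => win_mem_coords (hwin j) i) rfl hh hfC
  have hmid : (2 : ℝ) ^ (2 * h) ≤ 2 * h * mid h := by exact_mod_cast two_pow_le_mid hh
  have hQ' : (256 : ℝ) * h * h * Q ≤ b := by exact_mod_cast hQ
  refine ⟨fun x => decide (θ ≤ cnt Φ1 x), fun x => decide (θ ≤ cnt Φ0 x), ?_, ?_, ?_, ?_, ?_⟩
  · rw [comp_iff]
    exact (can_count c1 h1θ hθb).mono subset_rfl le_rfl (by omega) subset_rfl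
  · rw [comp_iff]
    exact (can_count c0 h1θ hθb).mono subset_rfl le_rfl (by omega) subset_rfl
  · intro x hx
    have e : ∀ j : Fin b, Φ1 j x = Φ0 j x := by
      intro j
      have h3 : f (win (2 * h) (j * (2 * h)) x) = true := by
        rw [hf, allRej_eq_true]
        intro i hi
        rw [win_win (by
          have : (i + 1) * n ≤ u * n := Nat.mul_le_mul_right _ hi
          nlinarith)]
        have h4 : (j : ℕ) * (2 * h) + i * n = (j * u + i) * n := by
          rw [← hk]; ring
        rw [h4]
        apply hx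
        have h5 : ((j : ℕ) + 1) * u ≤ b * u := Nat.mul_le_mul_right _ j.2
        nlinarith
      simp only [hΦ1, hΦ0, phi, h3, Bool.and_true]
      by_cases h4 : h + 1 ≤ wt (win (2 * h) (j * (2 * h)) x)
      · simp only [decide_eq_true h4, Bool.true_or]
        exact decide_eq_true (by omega)
      · simp only [decide_eq_false h4, Bool.false_or]
    have e2 : cnt Φ1 x = cnt Φ0 x := by
      unfold cnt
      simp only [e]
    simp only [e2]
  · have h3 := tail_win (m := m) (Q := Q) hbm
      (fun y : Fin (2 * h) → Bool => (if h ≤ wt y then (1 : ℝ) else 0) - tau h)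
      (δ := 1 / (4 * h)) (by
        intro y
        rw [abs_le]
        split_ifs <;> constructor <;> linarith) (by positivity) (by
        rw [sum_high]
        rw [div_mul_eq_mul_div, div_le_iff₀ (by positivity)]
        nlinarith) (by
        have h4 : (b : ℝ) * ((1 / (4 * h)) ^ 2 / 4) = b / (64 * h * h) := by
          field_simp
          ring
        rw [h4, le_div_iff₀ (by positivity)]
        have : (0 : ℝ) ≤ h * h * Q := by positivity
        nlinarith)
    refine le_trans (Nat.mul_le_mul_right _ (card_le_card ?_)) h3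
    intro x hx
    rw [mem_filter] at hx ⊢
    refine ⟨mem_univ _, ?_⟩
    have h4 := hx.2
    rw [decide_eq_false_iff_not, not_le, hθ, Nat.lt_ceil] at h4
    rw [cnt_eq_sum] at h4
    rw [sum_sub_distrib]
    simp only [sum_const, card_univ, Fintype.card_fin, nsmul_eq_mul]
    simp only [hΦ1, decide_eq_true_iff] at h4
    linarith
  · have h3 := tail_win (m := m) (Q := Q) hbm
      (fun y : Fin (2 * h) → Bool => tau h - if phi h f y = true then (1 : ℝ) else 0)
      (δ := 1 / (8 * h)) (by
        intro y
        rw [abs_le]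
        split_ifs <;> constructor <;> linarith) (by positivity) (by
        refine le_trans ?_ (sum_low f)
        have h4 : ((univ.filter fun y => f y = true).card : ℝ) * (8 * h) ≤ 2 ^ (2 * h) := by
          exact_mod_cast hfd
        rw [div_mul_eq_mul_div, div_le_iff₀ (by positivity)]
        nlinarith) (by
        have h4 : (b : ℝ) * ((1 / (8 * h)) ^ 2 / 4) = b / (256 * h * h) := by
          field_simp
          ring
        rw [h4, le_div_iff₀ (by positivity)]
        linarith)
    refine le_trans (Nat.mul_le_mul_right _ (card_le_card ?_)) h3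
    intro x hx
    rw [mem_filter] at hx ⊢
    refine ⟨mem_univ _, ?_⟩
    have h4 := hx.2
    rw [decide_eq_true_iff, hθ, Nat.ceil_le] at h4
    rw [cnt_eq_sum] at h4
    rw [sum_sub_distrib]
    simp only [sum_const, card_univ, Fintype.card_fin, nsmul_eq_mul]
    simp only [hΦ0] at h4
    linarith

end Pool.Agent.H529R2.MF
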