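import Pool.Agent.NPC.Defs

/-!
# Circuits and generators computable in polynomial time
-/

namespace Pool.Agent.H529R2.MF

open Finset Pool.Agent.NPC

/-- Circuits with AND and OR gates of fan-in two and NOT gates.  `Wires A s t B` says that `B` is
the set of functions computed at the wires of a circuit with `s` AND and OR gates and `t` NOT gates
whose inputs are the functions in `A`. -/
inductive Wires {α : Type} (A : Set (α → Bool)) : ℕ → ℕ → Set (α → Bool) → Prop
  | start : Wires A 0 0 A
  | and {s t : ℕ} {B : Set (α → Bool)} {f g : α → Bool} : Wires A s t B → f ∈ B → g ∈ B →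
      Wires A (s + 1) t (insert (fun x => f x && g x) B)
  | or {s t : ℕ} {B : Set (α → Bool)} {f g : α → Bool} : Wires A s t B → f ∈ B → g ∈ B →
      Wires A (s + 1) t (insert (fun x => f x || g x) B)
  | not {s t : ℕ} {B : Set (α → Bool)} {f : α → Bool} : Wires A s t B → f ∈ B →
      Wires A s (t + 1) (insert (fun x => !(f x)) B)

/-- The functions computed at the inputs of a circuit with `m` inputs. -/
def coords (m : ℕ) : Set ((Fin m → Bool) → Bool) := Set.range fun i x => x i

/-- The function `f` of `m` bits is computed by a circuit with at most `s` AND and OR gates and at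
most `t` NOT gates. -/
def Comp {m : ℕ} (s t : ℕ) (f : (Fin m → Bool) → Bool) : Prop :=
  ∃ s' ≤ s, ∃ t' ≤ t, ∃ B, Wires (coords m) s' t' B ∧ f ∈ B

/-- The string `1^m`. -/
def unary (m : ℕ) : List Bool := List.replicate m true

/-- The output `G_m(s)` of the generator `G` on the seed `s`, a string of `m` bits. -/
def out (G : List Bool → List Bool) (m : ℕ) (s : List Bool) : Fin m → Bool :=
  fun i => (G (pairBits (unary m) s)).getD i false

/-- A generator with seeds of logarithmic length: the seed length `d m` is computable from `1^m`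
and `G_m(s)` from `(1^m, s)` in time polynomial in `m`; `G_m(s)` has `m` bits; and
`d m ≤ c log m` and `d m < m` for all large `m`. -/
structure LogGen (d : ℕ → ℕ) (G : List Bool → List Bool) : Prop where
  poly_out : PolyTime G
  poly_seed : ∃ D, PolyTime D ∧ ∀ m, D (unary m) = unary (d m)
  length_out : ∀ m s, s.length = d m → (G (pairBits (unary m) s)).length = m
  log : ∃ c M, ∀ m ≥ M, 2 ^ d m ≤ m ^ c ∧ d m < m

/-- The fraction of inputs accepted by the test `f`. -/
noncomputable def acc {m : ℕ} (f : (Fin m → Bool) → Bool) : ℝ :=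
  ((univ.filter fun x : Fin m → Bool => f x = true).card : ℝ) / 2 ^ m

/-- The advantage of the test `f` against the generator. -/
noncomputable def adv (d : ℕ → ℕ) (G : List Bool → List Bool) {m : ℕ}
    (f : (Fin m → Bool) → Bool) : ℝ :=
  |acc (fun s : Fin (d m) → Bool => f (out G m (List.ofFn s))) - acc f|

/-- Some generator with logarithmic seeds has, for all large `m`, advantage at most
`1/2 - ε(m)` against all monotone circuits with at most `m` gates. -/
def FoolsMonotone (ε : ℕ → ℝ) : Prop :=
  ∃ d G, LogGen d G ∧ ∃ M, ∀ m ≥ M, ∀ f : (Fin m → Bool) → Bool, Comp m 0 f →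
    adv d G f ≤ 1 / 2 - ε m

/-- Some generator with logarithmic seeds hits, for all large `m`, every circuit with at most `m`
AND and OR gates and at most one NOT gate which accepts at least a fraction `1 - ε(m)` of its
inputs. -/
def HitsOneNot (ε : ℕ → ℝ) : Prop :=
  ∃ d G, LogGen d G ∧ ∃ M, ∀ m ≥ M, ∀ f : (Fin m → Bool) → Bool, Comp m 1 f →
    1 - ε m ≤ acc f → ∃ s : Fin (d m) → Bool, f (out G m (List.ofFn s)) = true

/-- Some generator with logarithmic seeds hits, for all large `m`, every circuit with at most `m`
AND and OR gates and any number of NOT gates which accepts at least half of its inputs. -/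
def HitsAll : Prop :=
  ∃ d G, LogGen d G ∧ ∃ M, ∀ m ≥ M, ∀ (t : ℕ) (f : (Fin m → Bool) → Bool), Comp m t f →
    1 / 2 ≤ acc f → ∃ s : Fin (d m) → Bool, f (out G m (List.ofFn s)) = true

/-- Some language decidable in time `2^{O(n)}` requires circuits of size `2^{Ω(n)}`. -/
def HardE : Prop :=
  ∃ V : List Bool → List Bool, PolyTime V ∧ ∃ q N, ∀ n ≥ N, ∀ (s t : ℕ) (f : (Fin n → Bool) → Bool),
    Comp s t f → (∀ x, f x = true ↔ V (pairBits (unary (2 ^ n)) (List.ofFn x)) = [true]) →
    2 ^ n ≤ s ^ q

end Pool.Agent.H529R2.MF
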