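import Pool.Agent.H529R2.MF.Core
import Pool.Agent.H529R2.Amp

/-!
# The block generator
-/

namespace Pool.Agent.H529R2.MF

open Finset Pool.Agent.NPC

/-- The segment of length `k` of a list starting at position `o`. -/
def seg (l : List Bool) (o k : ℕ) : List Bool := (List.range k).map fun a => l.getD (o + a) false

theorem length_seg (l : List Bool) (o k : ℕ) : (seg l o k).length = k := by simp [seg]

theorem getD_seg (l : List Bool) (o : ℕ) {k a : ℕ} (ha : a < k) :
    (seg l o k).getD a false = l.getD (o + a) false := by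
  unfold seg
  rw [List.getD_eq_getElem?_getD, List.getElem?_map, List.getElem?_range ha]
  rfl

theorem seg_append_left (l1 l2 : List Bool) : seg (l1 ++ l2) 0 l1.length = l1 := by
  apply List.ext_getElem
  · rw [length_seg]
  · intro i h1 h2
    have h3 := getD_seg (l1 ++ l2) 0 h2
    rw [List.getD_eq_getElem _ _ h1, zero_add, List.getD_eq_getElem _ _ (by simp; omega)] at h3
    rw [h3, List.getElem_append_left]

theorem seg_append_right (l1 l2 : List Bool) : seg (l1 ++ l2) l1.length l2.length = l2 := by
  apply List.ext_getElem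
  · rw [length_seg]
  · intro i h1 h2
    have h3 := getD_seg (l1 ++ l2) l1.length h2
    rw [List.getD_eq_getElem _ _ h1, List.getD_eq_getElem _ _ (by simp; omega)] at h3
    rw [h3, List.getElem_append_right (by omega)]
    congr 1
    omega

theorem exists_valB : ∀ (k q : ℕ), q < 2 ^ k → ∃ l : List Bool, l.length = k ∧ valB l = q
  | 0, q, hq => ⟨[], rfl, by simp at hq; simp [hq]⟩
  | k + 1, q, hq => by
    obtain ⟨l, hl, hv⟩ := exists_valB k (q / 2) (by
      rw [Nat.div_lt_iff_lt_mul (by norm_num)]
      rwa [pow_succ] at hq)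
    refine ⟨decide (q % 2 = 1) :: l, by simp [hl], ?_⟩
    rw [valB_cons, hv]
    have := Nat.mod_two_eq_zero_or_one q
    rcases this with h | h <;> simp [h] <;> omega

section Poly

variable {α : Type} [TEnc α]

theorem poly_seg {l : α → List Bool} {o k : α → ℕ} (hl : Poly l) (ho : Poly o) (hk : UPoly k) :
    Poly (fun a => seg (l a) (o a) (k a)) :=
  NPC.Poly.map (F := fun a j => (l a).getD (o a + j) false) hk.range
    (Poly.getD (hl.comp (Poly.fst Poly.id)) (Poly.add (ho.comp (Poly.fst Poly.id))
      (Poly.snd Poly.id)) (NPC.Poly.const false))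

theorem poly_unary {n : α → ℕ} (hn : UPoly n) : Poly (fun a => unary (n a)) :=
  (NPC.Poly.map (F := fun _ _ => true) hn (NPC.Poly.const true)).congr fun a => by simp [unary]

theorem upoly_size {n : α → ℕ} (hn : Poly n) : UPoly (fun a => Nat.size (n a)) :=
  (UPoly.length (Poly.natBits hn)).congr fun a => by
    simp only [Nat.size_eq_bits_len]

theorem upoly_pow {n : α → ℕ} (hn : UPoly n) (c : ℕ) : UPoly (fun a => (n a) ^ c) :=
  (UPoly.eval hn (Polynomial.X ^ c)).congr fun a => by simp

end Poly

/-- The length of the part of the seed that selects the block. -/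
def ell (n : ℕ) : ℕ := 22 * Nat.size n

/-- The seed length of the block generator. -/
def bd (d : ℕ → ℕ) (n : ℕ) : ℕ := d (n ^ 42) + ell n

/-- The block generator. -/
def bG (D G : List Bool → List Bool) (y : List Bool) : List Bool :=
  seg (G (pairBits (unary ((unpair y).1.length ^ 42))
      (seg (unpair y).2 0 (D (unary ((unpair y).1.length ^ 42))).length)))
    (valB (seg (unpair y).2 (D (unary ((unpair y).1.length ^ 42))).length
      (ell (unpair y).1.length)) * (unpair y).1.length) (unpair y).1.length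

theorem poly_bG {D G : List Bool → List Bool} (hD : PolyTime D) (hG : PolyTime G) :
    PolyTime (bG D G) := by
  apply H622R2.polyTime_of_poly_list
  have h1 : UPoly (fun y : List Bool => (unpair y).1.length) :=
    UPoly.length (Poly.fst poly_unpair)
  have h2 : UPoly (fun y : List Bool => (unpair y).1.length ^ 42) := upoly_pow h1 42
  have h3 : UPoly (fun y : List Bool => (D (unary ((unpair y).1.length ^ 42))).length) :=
    UPoly.length ((H622R2.poly_of_polyTime hD).comp (poly_unary h2))
  have h4 : UPoly (fun y : List Bool => ell (unpair y).1.length) :=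
    UPoly.mul (UPoly.const 22) (upoly_size h1.toPoly)
  exact poly_seg ((H622R2.poly_of_polyTime hG).comp (H622R2.poly_pairBits (poly_unary h2)
    (poly_seg (Poly.snd poly_unpair) (NPC.Poly.const 0) h3)))
    (Poly.mul (Poly.valBits (poly_seg (Poly.snd poly_unpair) h3.toPoly h4)) h1.toPoly) h1

theorem poly_bd {D : List Bool → List Bool} (hD : PolyTime D) :
    PolyTime (fun x => unary ((D (unary (x.length ^ 42))).length + ell x.length)) := by
  apply H622R2.polyTime_of_poly_list
  have h1 : UPoly (fun y : List Bool => y.length) := UPoly.length Poly.id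
  have h3 : UPoly (fun y : List Bool => (D (unary (y.length ^ 42))).length) :=
    UPoly.length ((H622R2.poly_of_polyTime hD).comp (poly_unary (upoly_pow h1 42)))
  exact poly_unary (UPoly.add h3 (UPoly.mul (UPoly.const 22) (upoly_size h1.toPoly)))

theorem length_unary (m : ℕ) : (unary m).length = m := by simp [unary]

theorem bG_pair (D G : List Bool → List Bool) {d : ℕ → ℕ} (hD : ∀ m, D (unary m) = unary (d m))
    (n : ℕ) (s : List Bool) : bG D G (pairBits (unary n) s) =
      seg (G (pairBits (unary (n ^ 42)) (seg s 0 (d (n ^ 42)))))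
        (valB (seg s (d (n ^ 42)) (ell n)) * n) n := by
  unfold bG
  rw [unpair_pairBits]
  simp only [length_unary, hD]

/-- Every power is eventually smaller than `2 ^ n`. -/
theorem exists_pow_lt (c : ℕ) : ∃ N, ∀ n ≥ N, n ^ c < 2 ^ n := by
  have h1 := (isLittleO_pow_const_const_pow_of_one_lt (R := ℝ) c one_lt_two).bound
    (show (0 : ℝ) < 1 / 2 by norm_num)
  obtain ⟨N, hN⟩ := Filter.eventually_atTop.1 h1
  refine ⟨N, fun n hn => ?_⟩
  have h2 := hN n hn
  have h3 : (n : ℝ) ^ c < 2 ^ n := by
    rw [Real.norm_of_nonneg (by positivity), Real.norm_of_nonneg (by positivity)] at h2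
    have : (0 : ℝ) < 2 ^ n := by positivity
    linarith
  exact_mod_cast h3

theorem two_pow_ell_le {n : ℕ} (hn : 2 ≤ n) : 2 ^ ell n ≤ n ^ 44 := by
  have h1 : 2 ^ Nat.size n ≤ n ^ 2 := by
    have h2 : Nat.size n ≤ Nat.size (n / 2) + 1 := by
      rw [Nat.size_le]
      have h3 := Nat.lt_size_self (n / 2)
      rw [pow_succ]
      omega
    have h4 : 2 ^ Nat.size (n / 2) ≤ n := by
      have h5 : 0 < Nat.size (n / 2) := Nat.size_pos.2 (by omega)
      have h6 : 2 ^ (Nat.size (n / 2) - 1) ≤ n / 2 := by
        rw [← Nat.lt_size]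
        omega
      have h7 : 2 ^ Nat.size (n / 2) = 2 * 2 ^ (Nat.size (n / 2) - 1) := by
        rw [← pow_succ']
        congr 1
        omega
      omega
    calc 2 ^ Nat.size n ≤ 2 ^ (Nat.size (n / 2) + 1) := Nat.pow_le_pow_right (by norm_num) h2
      _ = 2 ^ Nat.size (n / 2) * 2 := pow_succ _ _
      _ ≤ n * n := Nat.mul_le_mul h4 hn
      _ = n ^ 2 := by ring
  calc 2 ^ ell n = (2 ^ Nat.size n) ^ 22 := by rw [ell, mul_comm, pow_mul]
    _ ≤ (n ^ 2) ^ 22 := Nat.pow_le_pow_left h1 22
    _ = n ^ 44 := by rw [← pow_mul]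

theorem lt_two_pow_ell {n : ℕ} (hn : 2 ≤ n) : 2 * n ^ 21 < 2 ^ ell n := by
  calc 2 * n ^ 21 ≤ n * n ^ 21 := Nat.mul_le_mul_right _ hn
    _ = n ^ 22 := by ring
    _ < (2 ^ Nat.size n) ^ 22 := Nat.pow_lt_pow_left (Nat.lt_size_self n) (by norm_num)
    _ = 2 ^ ell n := by rw [ell, mul_comm, pow_mul]

theorem LogGen.block {d : ℕ → ℕ} {D G : List Bool → List Bool} (h : LogGen d G)
    (hD : PolyTime D) (hd : ∀ m, D (unary m) = unary (d m)) : LogGen (bd d) (bG D G) where
  poly_out := poly_bG hD h.poly_out
  poly_seed := ⟨_, poly_bd hD, fun m => by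
    simp only [length_unary, hd]
    rfl⟩
  length_out := fun m s _ => by
    rw [bG_pair D G hd, length_seg]
  log := by
    obtain ⟨c, M, hM⟩ := h.log
    obtain ⟨N, hN⟩ := exists_pow_lt (42 * c + 44)
    refine ⟨42 * c + 44, M + N + 2, fun m hm => ?_⟩
    have h1 : 2 ^ bd d m ≤ m ^ (42 * c + 44) := by
      have h2 := (hM (m ^ 42) (by
        have : m ^ 1 ≤ m ^ 42 := Nat.pow_le_pow_right (by omega) (by norm_num)
        rw [pow_one] at this
        omega)).1
      have h3 := two_pow_ell_le (n := m) (by omega)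
      rw [← pow_mul] at h2
      rw [bd, pow_add, pow_add]
      exact Nat.mul_le_mul h2 h3
    refine ⟨h1, ?_⟩
    have h2 := hN m (by omega)
    exact (Nat.pow_lt_pow_iff_right (by norm_num : 1 < 2)).1 (h1.trans_lt h2)

/-- The outputs of the block generator are the blocks of the outputs of the generator. -/
theorem exists_seed {d : ℕ → ℕ} {D G : List Bool → List Bool} (h : LogGen d G)
    (hd : ∀ m, D (unary m) = unary (d m)) {n : ℕ} (s : Fin (d (n ^ 42)) → Bool) {q : ℕ}
    (hq : q < 2 ^ ell n) : ∃ s' : Fin (bd d n) → Bool,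
      out (bG D G) n (List.ofFn s') = win n (q * n) (out G (n ^ 42) (List.ofFn s)) := by
  obtain ⟨l, hl, hv⟩ := exists_valB (ell n) q hq
  have hlen : (List.ofFn s ++ l).length = bd d n := by simp [bd, hl]
  refine ⟨fun i => (List.ofFn s ++ l).getD i false, ?_⟩
  have e : List.ofFn (fun i : Fin (bd d n) => (List.ofFn s ++ l).getD i false) =
      List.ofFn s ++ l := by
    apply List.ext_getElem
    · rw [List.length_ofFn, hlen]
    · intro i h1 h2
      rw [List.getElem_ofFn, List.getD_eq_getElem _ _ h2]
  rw [e]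
  have e1 : seg (List.ofFn s ++ l) 0 (d (n ^ 42)) = List.ofFn s := by
    have := seg_append_left (List.ofFn s) l
    rwa [List.length_ofFn] at this
  have e2 : seg (List.ofFn s ++ l) (d (n ^ 42)) (ell n) = l := by
    have := seg_append_right (List.ofFn s) l
    rwa [List.length_ofFn, hl] at this
  funext a
  unfold out win
  rw [bG_pair D G hd, e1, e2, hv, getD_seg _ _ a.2]
  have h3 := h.length_out (n ^ 42) (List.ofFn s) (by simp)
  split_ifs with h4
  · rfl
  · rw [List.getD_eq_default]
    rw [h3]
    omega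

end Pool.Agent.H529R2.MF
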