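import Pool.Agent.H529R2.MF.Steps

/-!
# Hitting all circuits gives a hard language in E; the one-bit generator
-/

namespace Pool.Agent.H529R2.MF

open Finset Pool.Agent.NPC

/-! ### The trivial generator -/

/-- Monotone circuits compute functions which are `0` at `0` and `1` at `1`. -/
theorem Wires.const_of_monotone {m : ℕ} {s t : ℕ} {B : Set ((Fin m → Bool) → Bool)}
    (h : Wires (coords m) s t B) (ht : t = 0) (c : Bool) : ∀ f ∈ B, f (fun _ => c) = c := by
  induction h with
  | start =>
    rintro _ ⟨i, rfl⟩
    rfl
  | and _ h1 h2 ih =>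
    rintro f (rfl | hf)
    · simp only [ih ht _ h1, ih ht _ h2, Bool.and_self]
    · exact ih ht f hf
  | or _ h1 h2 ih =>
    rintro f (rfl | hf)
    · simp only [ih ht _ h1, ih ht _ h2, Bool.or_self]
    · exact ih ht f hf
  | not _ h1 ih => omega

/-- The generator with seeds of one bit and outputs `0^m` and `1^m`. -/
def G1 (y : List Bool) : List Bool := (unpair y).1.map fun _ => (unpair y).2.getD 0 false

theorem logGen_G1 : LogGen (fun _ => 1) G1 where
  poly_out := by
    apply H622R2.polyTime_of_poly_list
    exact NPC.Poly.map (F := fun (y : List Bool) _ => (unpair y).2.getD 0 false)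
      (Poly.fst poly_unpair)
      ((Poly.getD (Poly.snd poly_unpair) (NPC.Poly.const 0) (NPC.Poly.const false)).comp
        (Poly.fst Poly.id))
  poly_seed := ⟨fun _ => unary 1, H622R2.polyTime_of_poly_list (NPC.Poly.const _), fun _ => rfl⟩
  length_out := fun m s _ => by
    unfold G1
    rw [unpair_pairBits]
    simp [unary]
  log := ⟨1, 2, fun m hm => ⟨by simpa using hm, by omega⟩⟩

theorem out_G1 (m : ℕ) (s : Fin 1 → Bool) : out G1 m (List.ofFn s) = fun _ => s 0 := by
  funext i
  unfold out G1
  rw [unpair_pairBits]
  have h1 : (List.ofFn s).getD 0 false = s 0 := by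
    rw [List.getD_eq_getElem _ _ (by simp)]
    simp
  simp only [h1]
  rw [List.getD_eq_getElem _ _ (by simp [unary])]
  simp

theorem foolsMonotone_G1 : FoolsMonotone fun m => (2 : ℝ) ^ (-(m : ℝ)) := by
  refine ⟨fun _ => 1, G1, logGen_G1, 0, fun m _ f hf => ?_⟩
  obtain ⟨s, -, t, ht, B, hB, hfB⟩ := hf
  have ht0 : t = 0 := by omega
  have hc := hB.const_of_monotone ht0
  unfold adv
  have h1 : acc (fun s : Fin 1 → Bool => f (out G1 m (List.ofFn s))) = 1 / 2 := by
    simp only [out_G1]
    have h2 : ∀ s : Fin 1 → Bool, f (fun _ => s 0) = s 0 := fun s => hc (s 0) f hfB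
    simp only [h2]
    unfold acc
    have h3 : (univ.filter fun x : Fin 1 → Bool => x 0 = true).card = 1 := by decide
    rw [h3]
    norm_num
  have h2 := acc_add_rej f
  have h3 : (1 : ℝ) / 2 ^ m ≤ acc f := by
    unfold acc
    refine div_le_div_of_nonneg_right ?_ (by positivity)
    have h4 : 0 < (univ.filter fun x : Fin m → Bool => f x = true).card :=
      card_pos.2 ⟨fun _ => true, by rw [mem_filter]; exact ⟨mem_univ _, hc true f hfB⟩⟩
    exact_mod_cast h4
  have h5 : (1 : ℝ) / 2 ^ m ≤
      ((univ.filter fun x : Fin m → Bool => f x = false).card : ℝ) / 2 ^ m := by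
    refine div_le_div_of_nonneg_right ?_ (by positivity)
    have h4 : 0 < (univ.filter fun x : Fin m → Bool => f x = false).card :=
      card_pos.2 ⟨fun _ => false, by rw [mem_filter]; exact ⟨mem_univ _, hc false f hfB⟩⟩
    exact_mod_cast h4
  rw [h1]
  have h6 : (2 : ℝ) ^ (-(m : ℝ)) = 1 / 2 ^ m := by
    rw [Real.rpow_neg (by norm_num), Real.rpow_natCast, one_div]
  simp only [h6]
  rw [abs_le]
  constructor <;> linarith

/-! ### Hitting all circuits -/

theorem hitsOneNot_of_hitsAll (h : HitsAll) : HitsOneNot eps := by
  obtain ⟨d, G, hG, M, hM⟩ := h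
  refine ⟨d, G, hG, M + 1, fun m hm f hf hacc => hM m (by omega) 1 f hf (le_trans ?_ hacc)⟩
  have h1 : eps m ≤ 1 / 2 := by
    unfold eps
    have h2 : (1 : ℝ) ≤ (m : ℝ) ^ ((1 : ℝ) / 3) :=
      Real.one_le_rpow (by exact_mod_cast (by omega : 1 ≤ m)) (by norm_num)
    calc (2 : ℝ) ^ (-((m : ℝ) ^ ((1 : ℝ) / 3))) ≤ (2 : ℝ) ^ (-(1 : ℝ)) :=
          Real.rpow_le_rpow_of_exponent_le (by norm_num) (by linarith)
      _ = 1 / 2 := by rw [Real.rpow_neg (by norm_num), Real.rpow_one, one_div]
  linarith

/-- The binary digits of `i`, as a list of length `k`. -/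
def digits (k i : ℕ) : List Bool := (List.range k).map fun j => i.bits.getD j false

theorem length_digits (k i : ℕ) : (digits k i).length = k := by simp [digits]

theorem digits_zero (i : ℕ) : digits 0 i = [] := rfl

theorem bits_getD (i j : ℕ) : i.bits.getD j false = i.testBit j := by
  rw [Nat.testBit_eq_inth]
  rw [List.getI_eq_getElem?_getD, List.getD_eq_getElem?_getD]
  rfl

theorem digits_surj {k : ℕ} (s : Fin k → Bool) : ∃ i < 2 ^ k, digits k i = List.ofFn s := by
  refine ⟨valB (List.ofFn s), ?_, ?_⟩
  · have := valB_lt (List.ofFn s)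
    rwa [List.length_ofFn] at this
  · have key : ∀ (l : List Bool) (j : ℕ), (valB l).testBit j = l.getD j false := by
      intro l
      induction l with
      | nil => intro j; simp
      | cons b l ih =>
        intro j
        rw [valB_cons]
        have e : (if b = true then 1 else 0) + 2 * valB l = Nat.bit b (valB l) := by
          cases b <;> simp [Nat.bit] <;> omega
        rw [e]
        cases j with
        | zero => simp [Nat.testBit_bit_zero]
        | succ j => rw [Nat.testBit_bit_succ, ih]; simp
    apply List.ext_getElem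
    · rw [length_digits, List.length_ofFn]
    · intro j h1 h2
      simp only [digits, List.getElem_map, List.getElem_range]
      rw [bits_getD, key, List.getD_eq_getElem _ _ h2]

/-- The test that a string is a prefix of an output of the generator. -/
def isPrefix (D G : List Bool → List Bool) (c : ℕ) (w z : List Bool) : Bool :=
  (List.range (min (2 ^ (D (unary (min (2 ^ (z.length / (c + 1))) w.length))).length)
    w.length)).any fun i => decide (seg (G (pairBits (unary (min (2 ^ (z.length / (c + 1)))
      w.length)) (digits (D (unary (min (2 ^ (z.length / (c + 1))) w.length))).length i)))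
      0 z.length = z)

section Poly

variable {α : Type} [TEnc α]

theorem valB_pow (n : ℕ) : valB (List.replicate n false ++ [true]) = 2 ^ n := by
  rw [valB_append]
  have : valB (List.replicate n false) = 0 := by
    induction n with
    | zero => rfl
    | succ n ih => rw [List.replicate_succ, valB_cons, ih]; simp
  rw [this]
  simp

theorem poly_two_pow {n : α → ℕ} (hn : UPoly n) : Poly (fun a => 2 ^ n a) := by
  refine (Poly.valBits (Poly.append (NPC.Poly.map (F := fun _ _ => false) hn
    (NPC.Poly.const false)) (NPC.Poly.const [true]))).congr fun a => ?_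
  simp only [List.map_replicate]
  exact valB_pow (n a)

theorem poly_digits {k i : α → ℕ} (hk : UPoly k) (hi : Poly i) :
    Poly (fun a => digits (k a) (i a)) :=
  NPC.Poly.map (F := fun a j => (i a).bits.getD j false) hk.range
    (Poly.getD (Poly.natBits (hi.comp (Poly.fst Poly.id))) (Poly.snd Poly.id)
      (NPC.Poly.const false))

theorem upoly_div {n : α → ℕ} (hn : UPoly n) (c : ℕ) : UPoly (fun a => n a / c) :=
  UPoly.of_le (Poly.div hn.toPoly (NPC.Poly.const c)) hn fun a => Nat.div_le_self _ _

theorem poly_isPrefix {D G : List Bool → List Bool} (hD : PolyTime D) (hG : PolyTime G) (c : ℕ) :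
    Poly (fun y : List Bool => isPrefix D G c (unpair y).1 (unpair y).2) := by
  have hw : UPoly (fun y : List Bool => (unpair y).1.length) := UPoly.length (Poly.fst poly_unpair)
  have hz : UPoly (fun y : List Bool => (unpair y).2.length) := UPoly.length (Poly.snd poly_unpair)
  have hm : UPoly (fun y : List Bool => min (2 ^ ((unpair y).2.length / (c + 1)))
      (unpair y).1.length) :=
    UPoly.of_le (Poly.min (poly_two_pow (upoly_div hz (c + 1))) hw.toPoly) hw
      fun a => min_le_right _ _
  have hu := poly_unary hm
  have hd : UPoly (fun y : List Bool => (D (unary (min (2 ^ ((unpair y).2.length / (c + 1)))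
      (unpair y).1.length))).length) := UPoly.length ((H622R2.poly_of_polyTime hD).comp hu)
  have hr : UPoly (fun y : List Bool => min (2 ^ (D (unary (min
      (2 ^ ((unpair y).2.length / (c + 1))) (unpair y).1.length))).length)
      (unpair y).1.length) :=
    UPoly.of_le (Poly.min (poly_two_pow hd) hw.toPoly) hw fun a => min_le_right _ _
  exact Poly.any (p := fun y i => decide (seg (G (pairBits (unary (min
      (2 ^ ((unpair y).2.length / (c + 1))) (unpair y).1.length))
      (digits (D (unary (min (2 ^ ((unpair y).2.length / (c + 1)))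
      (unpair y).1.length))).length i))) 0 (unpair y).2.length = (unpair y).2)) hr.range
    (Poly.decide_eq (poly_seg ((H622R2.poly_of_polyTime hG).comp
      (H622R2.poly_pairBits (hu.comp (Poly.fst Poly.id))
        (poly_digits (hd.comp (Poly.fst Poly.id)) (Poly.snd Poly.id))))
      (NPC.Poly.const 0) (hz.comp (Poly.fst Poly.id)))
      ((Poly.snd poly_unpair).comp (Poly.fst Poly.id)))

end Poly

theorem acc_win {m k : ℕ} (h : k ≤ m) (f : (Fin k → Bool) → Bool) :
    acc (fun x : Fin m → Bool => f (win k 0 x)) = acc f := by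
  have h1 := card_win (m := m) (b := 1) (k := k) (by omega)
    (fun r : Fin 1 → Fin k → Bool => f (r 0) = true)
  have h2 : (univ.filter fun r : Fin 1 → Fin k → Bool => f (r 0) = true).card =
      (univ.filter fun y : Fin k → Bool => f y = true).card := by
    refine card_equiv (Equiv.funUnique (Fin 1) (Fin k → Bool)) fun r => ?_
    rw [mem_filter, mem_filter]
    simp only [mem_univ, true_and]
    rfl
  rw [h2] at h1
  have h3 : (univ.filter fun x : Fin m → Bool => f (win k 0 x) = true).card =
      (univ.filter fun y : Fin k → Bool => f y = true).card * 2 ^ (m - k) := by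
    rw [one_mul] at h1
    rw [← h1]
    congr 1
    apply filter_congr
    intro x _
    simp
  unfold acc
  rw [h3]
  push_cast
  rw [div_eq_div_iff (by positivity) (by positivity), mul_assoc, ← pow_add,
    Nat.sub_add_cancel h]

theorem seg_eq_iff {G : List Bool → List Bool} {m k : ℕ} (h : k ≤ m) (s : List Bool)
    (x : Fin k → Bool) :
    seg (G (pairBits (unary m) s)) 0 k = List.ofFn x ↔ win k 0 (out G m s) = x := by
  constructor
  · intro h1
    funext a
    have ha := a.2
    have h2 := getD_seg (G (pairBits (unary m) s)) 0 ha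
    rw [h1, List.getD_eq_getElem _ _ (by simp)] at h2
    simp only [List.getElem_ofFn, Fin.eta] at h2
    unfold win out
    rw [dif_pos (by omega)]
    exact h2.symm
  · rintro rfl
    apply List.ext_getElem
    · rw [length_seg, List.length_ofFn]
    · intro i h2 h3
      have hi : i < k := by simpa using h3
      have h4 := getD_seg (G (pairBits (unary m) s)) 0 hi
      rw [List.getD_eq_getElem _ _ h2] at h4
      rw [h4, List.getElem_ofFn]
      unfold win out
      rw [dif_pos (by simp only; omega)]

theorem hardE_of_hitsAll (h : HitsAll) : HardE := by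
  obtain ⟨d, G, hG, M, hM⟩ := h
  obtain ⟨D, hD, hd⟩ := hG.poly_seed
  obtain ⟨c, M', hM'⟩ := hG.log
  refine ⟨fun y => [!(isPrefix D G c (unpair y).1 (unpair y).2)],
    polyTime_of_poly (Poly.not (poly_isPrefix hD hG.poly_out c)), 2 * (c + 1),
    (c + 1) * (M + M' + 2 * c + 8), fun k hk s t f hf hfV => ?_⟩
  obtain ⟨e, he⟩ : ∃ e, e = k / (c + 1) := ⟨_, rfl⟩
  have he1 : M + M' + 2 * c + 8 ≤ e := by
    rw [he, Nat.le_div_iff_mul_le (by omega), mul_comm]
    exact hk
  have he2 : e * (c + 1) ≤ k := by rw [he]; exact Nat.div_mul_le_self k (c + 1)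
  have he3 : k < (e + 1) * (c + 1) := by
    have := Nat.lt_div_mul_add (a := k) (b := c + 1) (by omega)
    rw [← he] at this
    nlinarith
  obtain ⟨m, hm⟩ : ∃ m, m = 2 ^ e := ⟨_, rfl⟩
  have hem : e < m := by rw [hm]; exact Nat.lt_two_pow_self
  have hmk : k ≤ m := by
    have h1 : (e + 1) * (c + 1) ≤ 2 ^ e := by
      have h3 : ∀ a, 4 ≤ a → a ^ 2 ≤ 2 ^ a := by
        intro a ha
        induction a, ha using Nat.le_induction with
        | base => norm_num
        | succ a ha ih => rw [pow_succ 2 a]; nlinarith
      have h4 := h3 e (by omega)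
      nlinarith
    omega
  have hdm := hM' m (by omega)
  have hdk : 2 ^ d m * 2 ≤ 2 ^ k := by
    have h1 : m ^ c * 2 ≤ 2 ^ k := by
      rw [hm, ← pow_mul, ← pow_succ]
      refine Nat.pow_le_pow_right (by norm_num) ?_
      nlinarith
    exact (Nat.mul_le_mul_right 2 hdm.1).trans h1
  have hm2k : m ≤ 2 ^ k := by
    rw [hm]
    refine Nat.pow_le_pow_right (by norm_num) ?_
    nlinarith
  -- the meaning of the test
  have hV : ∀ x : Fin k → Bool, f x = true ↔
      ¬ ∃ i < 2 ^ d m, win k 0 (out G m (digits (d m) i)) = x := by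
    intro x
    rw [hfV x]
    have e1 : min (2 ^ ((List.ofFn x).length / (c + 1))) (unary (2 ^ k)).length = m := by
      rw [List.length_ofFn, length_unary, ← he, ← hm]
      exact min_eq_left hm2k
    have e2 : min (2 ^ d m) (unary (2 ^ k)).length = 2 ^ d m := by
      rw [length_unary]
      refine min_eq_left ?_
      omega
    have e3 : (D (unary m)).length = d m := by rw [hd, length_unary]
    simp only [unpair_pairBits]
    unfold isPrefix
    rw [e1, e3, e2, List.length_ofFn]
    simp only [List.cons.injEq, and_true, Bool.not_eq_true', List.any_eq_false, List.mem_range,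
      decide_eq_true_iff]
    push Not
    exact forall₂_congr fun i _ => not_congr (seg_eq_iff hmk _ x)
  -- the test is dense
  have hdens : 1 / 2 ≤ acc f := by
    have h1 := acc_add_rej f
    have h2 : (univ.filter fun x : Fin k → Bool => f x = false).card ≤ 2 ^ d m := by
      have h3 : (univ.filter fun x : Fin k → Bool => f x = false) ⊆
          (Finset.range (2 ^ d m)).image fun i => win k 0 (out G m (digits (d m) i)) := by
        intro x hx
        rw [mem_filter] at hx
        have h4 : ¬ (f x = true) := by rw [hx.2]; simp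
        rw [hV x, not_not] at h4
        obtain ⟨i, hi, hix⟩ := h4
        rw [mem_image]
        exact ⟨i, Finset.mem_range.2 hi, hix⟩
      refine (card_le_card h3).trans (card_image_le.trans ?_)
      rw [card_range]
    have h5 : ((univ.filter fun x : Fin k → Bool => f x = false).card : ℝ) / 2 ^ k ≤ 1 / 2 := by
      rw [div_le_iff₀ (by positivity)]
      have h6 : ((univ.filter fun x : Fin k → Bool => f x = false).card : ℝ) * 2 ≤ 2 ^ k := by
        exact_mod_cast (Nat.mul_le_mul_right 2 h2).trans hdk
      linarith
    linarith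
  by_contra hcon
  push Not at hcon
  have hsm : s ≤ m := by
    by_contra hs
    push Not at hs
    have h1 : 2 ^ k ≤ s ^ (2 * (c + 1)) := by
      calc 2 ^ k ≤ 2 ^ (e * (2 * (c + 1))) := Nat.pow_le_pow_right (by norm_num) (by nlinarith)
        _ = m ^ (2 * (c + 1)) := by rw [hm, pow_mul]
        _ ≤ s ^ (2 * (c + 1)) := Nat.pow_le_pow_left hs.le _
    omega
  have hF : Comp m t (fun x : Fin m → Bool => f (win k 0 x)) := by
    rw [comp_iff] at hf ⊢
    have h1 := hf.map (fun x : Fin m → Bool => win k 0 x) (A' := coords m) (by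
      rintro _ ⟨a, rfl⟩
      exact win_mem_coords (by omega) a)
    rw [Set.image_singleton] at h1
    exact h1.mono subset_rfl hsm le_rfl subset_rfl
  obtain ⟨σ, hσ⟩ := hM m (by omega) t _ hF (by rw [acc_win hmk]; exact hdens)
  obtain ⟨i, hi, hiσ⟩ := digits_surj σ
  rw [hV] at hσ
  exact hσ ⟨i, hi, by rw [hiσ]⟩

end Pool.Agent.H529R2.MF
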