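import Pool.Agent.H529R2.MF.Gen

/-!
# Fooling monotone circuits, and hitting circuits with one NOT gate, is hitting all circuits
-/

namespace Pool.Agent.H529R2.MF

open Finset Pool.Agent.NPC

/-- The number `2^{-m^{1/3}}`. -/
noncomputable def eps (m : ℕ) : ℝ := (2 : ℝ) ^ (-((m : ℝ) ^ ((1 : ℝ) / 3)))

theorem eps_pow (n : ℕ) : eps (n ^ 42) = (1 / 2) ^ (n ^ 14) := by
  unfold eps
  have h1 : ((n ^ 42 : ℕ) : ℝ) ^ ((1 : ℝ) / 3) = ((n ^ 14 : ℕ) : ℝ) := by
    have h2 : ((n ^ 42 : ℕ) : ℝ) = (((n ^ 14 : ℕ) : ℝ)) ^ 3 := by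
      push_cast
      rw [← pow_mul]
    rw [h2]
    have h3 := Real.pow_rpow_inv_natCast (x := ((n ^ 14 : ℕ) : ℝ)) (n := 3) (by positivity)
      (by norm_num)
    have h4 : ((1 : ℝ) / 3) = ((3 : ℕ) : ℝ)⁻¹ := by norm_num
    rw [h4]
    exact h3
  rw [h1, Real.rpow_neg (by norm_num), Real.rpow_natCast]
  rw [one_div, inv_pow]

theorem acc_nonneg {m : ℕ} (f : (Fin m → Bool) → Bool) : 0 ≤ acc f := by
  unfold acc; positivity

theorem acc_add_rej {m : ℕ} (f : (Fin m → Bool) → Bool) :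
    acc f + ((univ.filter fun x : Fin m → Bool => f x = false).card : ℝ) / 2 ^ m = 1 := by
  unfold acc
  rw [← add_div, div_eq_one_iff_eq (by positivity)]
  have h1 : (univ.filter fun x : Fin m → Bool => f x = true).card +
      (univ.filter fun x : Fin m → Bool => f x = false).card = 2 ^ m := by
    have h2 := card_filter_add_card_filter_not (s := (univ : Finset (Fin m → Bool)))
      (fun x => f x = true)
    simp only [Bool.not_eq_true, card_univ, Fintype.card_fun, Fintype.card_bool,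
      Fintype.card_fin] at h2
    exact h2
  exact_mod_cast h1

theorem eight_sq_le (n : ℕ) (hn : 4 ≤ n) : 8 * (n * n) ≤ 2 ^ (2 * n) := by
  induction n, hn using Nat.le_induction with
  | base => norm_num
  | succ n hn ih =>
    rw [show 2 * (n + 1) = 2 * n + 2 by ring, pow_add]
    nlinarith

theorem sizes (n : ℕ) (hn : 30 ≤ n) :
    (n ^ 20 * (2 * (2 * (n * n)) * (2 * (n * n))) + 2 * n ^ 20 * n ^ 20) +
    (n ^ 20 * (2 * (2 * (n * n)) * (2 * (n * n)) * (2 * (n * n)) +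
      2 * (2 * (n * n)) * (2 * (n * n)) + 2 * (2 * n * n + 2 * (2 * n) * (2 * n)) + 2) +
      2 * n ^ 20 * n ^ 20) + 1 ≤ n ^ 42 := by
  have e : (n ^ 20 * (2 * (2 * (n * n)) * (2 * (n * n))) + 2 * n ^ 20 * n ^ 20) +
    (n ^ 20 * (2 * (2 * (n * n)) * (2 * (n * n)) * (2 * (n * n)) +
      2 * (2 * (n * n)) * (2 * (n * n)) + 2 * (2 * n * n + 2 * (2 * n) * (2 * n)) + 2) +
      2 * n ^ 20 * n ^ 20) + 1 =
      4 * n ^ 40 + 16 * n ^ 26 + 16 * n ^ 24 + 20 * n ^ 22 + 2 * n ^ 20 + 1 := by ring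
  rw [e]
  have h1 : ∀ k ≤ 40, n ^ k ≤ n ^ 40 := fun k hk => Nat.pow_le_pow_right (by omega) hk
  have h26 := h1 26 (by norm_num)
  have h24 := h1 24 (by norm_num)
  have h22 := h1 22 (by norm_num)
  have h20 := h1 20 (by norm_num)
  have h0 : 1 ≤ n ^ 40 := Nat.one_le_pow _ _ (by omega)
  have h42 : 900 * n ^ 40 ≤ n ^ 42 := by
    rw [show (42 : ℕ) = 2 + 40 by norm_num, pow_add]
    refine Nat.mul_le_mul_right _ ?_
    nlinarith
  omega

/-- The two monotone tests attached to a circuit. -/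
theorem exists_tests {n t : ℕ} (hn : 30 ≤ n) {C : (Fin n → Bool) → Bool} (hC : Comp n t C)
    (hd : 1 / 2 ≤ acc C) : ∃ g1 g0 : (Fin (n ^ 42) → Bool) → Bool, ∃ s1 s0,
      s1 + s0 + 1 ≤ n ^ 42 ∧ Comp s1 0 g1 ∧ Comp s0 0 g0 ∧
      (∀ x, (∀ q < 2 * n ^ 21, C (win n (q * n) x) = false) → g1 x = g0 x) ∧
      1 - (1 / 2) ^ (n ^ 14 + 1) ≤ acc g1 ∧ acc g0 ≤ (1 / 2) ^ (n ^ 14 + 1) := by
  have hrej : 2 * (univ.filter fun y => C y = false).card ≤ 2 ^ n := by
    have h1 := acc_add_rej C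
    have h2 : ((univ.filter fun y => C y = false).card : ℝ) / 2 ^ n ≤ 1 / 2 := by linarith
    rw [div_le_iff₀ (by positivity)] at h2
    have h3 : (2 : ℝ) * (univ.filter fun y => C y = false).card ≤ 2 ^ n := by linarith
    exact_mod_cast h3
  obtain ⟨g1, g0, h1, h0, hg, hr1, hr0⟩ := core (m := n ^ 42) (h := n * n) (b := n ^ 20)
    (n := n) (u := 2 * n) (s := n) (t := t) (Q := n ^ 14 + 1) (by ring) (by nlinarith) (by omega)
    (Nat.one_le_pow _ _ (by omega)) (by
      calc n ^ 20 * (2 * (n * n)) = 2 * n ^ 22 := by ring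
        _ ≤ n * n ^ 22 := Nat.mul_le_mul_right _ (by omega)
        _ = n ^ 23 := by ring
        _ ≤ n ^ 42 := Nat.pow_le_pow_right (by omega) (by norm_num)) (by
      have e : 256 * (n * n) * (n * n) * (n ^ 14 + 1) = 256 * n ^ 18 + 256 * n ^ 4 := by ring
      rw [e]
      have h2 : n ^ 4 ≤ n ^ 18 := Nat.pow_le_pow_right (by omega) (by norm_num)
      have h3 : 900 * n ^ 18 ≤ n ^ 20 := by
        rw [show (20 : ℕ) = 2 + 18 by norm_num, pow_add]
        refine Nat.mul_le_mul_right _ ?_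
        nlinarith
      omega) (eight_sq_le n (by omega)) hC hrej
  refine ⟨g1, g0, _, _, sizes n hn, h1, h0, ?_, ?_, ?_⟩
  · intro x hx
    refine hg x fun q hq => hx q ?_
    calc q < n ^ 20 * (2 * n) := hq
      _ = 2 * n ^ 21 := by ring
  · have h2 := acc_add_rej g1
    have h3 : ((univ.filter fun x => g1 x = false).card : ℝ) / 2 ^ (n ^ 42) ≤
        (1 / 2) ^ (n ^ 14 + 1) := by
      have h4 : ((univ.filter fun x => g1 x = false).card : ℝ) * 2 ^ (n ^ 14 + 1) ≤
          2 ^ (n ^ 42) := by exact_mod_cast hr1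
      rw [div_le_iff₀ (by positivity), one_div, inv_pow, inv_mul_eq_div,
        le_div_iff₀ (by positivity)]
      exact h4
    linarith
  · unfold acc
    have h4 : ((univ.filter fun x => g0 x = true).card : ℝ) * 2 ^ (n ^ 14 + 1) ≤
        2 ^ (n ^ 42) := by exact_mod_cast hr0
    rw [div_le_iff₀ (by positivity), one_div, inv_pow, inv_mul_eq_div,
      le_div_iff₀ (by positivity)]
    exact h4

theorem hitsAll_of_foolsMonotone (h : FoolsMonotone eps) : HitsAll := by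
  obtain ⟨d, G, hG, M, hM⟩ := h
  obtain ⟨D, hD, hd⟩ := hG.poly_seed
  refine ⟨bd d, bG D G, hG.block hD hd, M + 30, fun n hn t C hC hacc => ?_⟩
  by_contra hcon
  push Not at hcon
  obtain ⟨g1, g0, s1, s0, hs, h1, h0, hg, ha1, ha0⟩ := exists_tests (by omega) hC hacc
  have hm : M ≤ n ^ 42 := by
    have : n ^ 1 ≤ n ^ 42 := Nat.pow_le_pow_right (by omega) (by norm_num)
    rw [pow_one] at this
    omega
  have heq : ∀ s : Fin (d (n ^ 42)) → Bool,
      g1 (out G (n ^ 42) (List.ofFn s)) = g0 (out G (n ^ 42) (List.ofFn s)) := by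
    intro s
    refine hg _ fun q hq => ?_
    obtain ⟨s', hs'⟩ := exists_seed hG hd s (hq.trans (lt_two_pow_ell (n := n) (by omega)))
    rw [← hs']
    simpa using hcon s'
  have e1 := hM (n ^ 42) hm g1 (by
    obtain ⟨a, ha, b, hb, B, hB, hf⟩ := h1
    exact ⟨a, by omega, b, hb, B, hB, hf⟩)
  have e0 := hM (n ^ 42) hm g0 (by
    obtain ⟨a, ha, b, hb, B, hB, hf⟩ := h0
    exact ⟨a, by omega, b, hb, B, hB, hf⟩)
  unfold adv at e1 e0
  rw [eps_pow] at e1 e0
  simp only [heq] at e1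
  have h2 := abs_le.1 e1
  have h3 := abs_le.1 e0
  have h4 : ((1 : ℝ) / 2) ^ (n ^ 14 + 1) = (1 / 2) ^ (n ^ 14) / 2 := by
    rw [pow_succ]; ring
  have h5 : (0 : ℝ) < (1 / 2) ^ (n ^ 14) := by positivity
  rw [h4] at ha1 ha0
  linarith [h2.1, h3.2]

theorem hitsAll_of_hitsOneNot (h : HitsOneNot eps) : HitsAll := by
  obtain ⟨d, G, hG, M, hM⟩ := h
  obtain ⟨D, hD, hd⟩ := hG.poly_seed
  refine ⟨bd d, bG D G, hG.block hD hd, M + 30, fun n hn t C hC hacc => ?_⟩
  by_contra hcon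
  push Not at hcon
  obtain ⟨g1, g0, s1, s0, hs, h1, h0, hg, ha1, ha0⟩ := exists_tests (by omega) hC hacc
  have hm : M ≤ n ^ 42 := by
    have : n ^ 1 ≤ n ^ 42 := Nat.pow_le_pow_right (by omega) (by norm_num)
    rw [pow_one] at this
    omega
  have heq : ∀ s : Fin (d (n ^ 42)) → Bool,
      g1 (out G (n ^ 42) (List.ofFn s)) = g0 (out G (n ^ 42) (List.ofFn s)) := by
    intro s
    refine hg _ fun q hq => ?_
    obtain ⟨s', hs'⟩ := exists_seed hG hd s (hq.trans (lt_two_pow_ell (n := n) (by omega)))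
    rw [← hs']
    simpa using hcon s'
  rw [comp_iff] at h1 h0
  have h2 : Comp (n ^ 42) 1 (fun x => g1 x && !(g0 x)) := by
    rw [comp_iff]
    have h3 : Can (coords (n ^ 42) ∪ ({g1} ∪ {g0})) 1 1 {fun x => g1 x && !(g0 x)} :=
      ((can_not (f := g0) (Or.inr (Or.inr rfl))).single
        (can_and (Or.inl (Or.inr (Or.inl rfl))) (Or.inr rfl))).mono subset_rfl (by omega)
        (by omega) subset_rfl
    exact ((h1.union h0).single h3).mono subset_rfl (by omega) (by omega) subset_rfl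
  have h4 : ((1 : ℝ) / 2) ^ (n ^ 14 + 1) = (1 / 2) ^ (n ^ 14) / 2 := by
    rw [pow_succ]; ring
  have h5 : acc g1 ≤ acc (fun x => g1 x && !(g0 x)) + acc g0 := by
    unfold acc
    rw [← add_div]
    refine div_le_div_of_nonneg_right ?_ (by positivity)
    have h6 : (univ.filter fun x => g1 x = true).card ≤
        (univ.filter fun x => (g1 x && !(g0 x)) = true).card +
        (univ.filter fun x => g0 x = true).card := by
      refine (card_le_card ?_).trans (card_union_le _ _)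
      intro x hx
      rw [mem_filter] at hx
      rw [mem_union, mem_filter, mem_filter]
      cases h7 : g0 x
      · exact Or.inl ⟨mem_univ _, by rw [hx.2]; rfl⟩
      · exact Or.inr ⟨mem_univ _, rfl⟩
    exact_mod_cast h6
  obtain ⟨s, hs'⟩ := hM (n ^ 42) hm _ h2 (by
    rw [eps_pow]
    rw [h4] at ha1 ha0
    linarith)
  rw [heq s] at hs'
  cases h7 : g0 (out G (n ^ 42) (List.ofFn s)) <;> simp [h7] at hs'

end Pool.Agent.H529R2.MF
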