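import Pool.Agent.H529R2.MF.Circ
import Pool.Agent.H529R2.Block

/-!
# Slice functions and thresholds of slice functions as monotone circuits
-/

namespace Pool.Agent.H529R2.MF

open Finset

variable {α β : Type}

/-- The slice function: more than `h` ones, or exactly `h` ones and `f`. -/
def phi (h : ℕ) {k : ℕ} (f : (Fin k → Bool) → Bool) (y : Fin k → Bool) : Bool :=
  decide (h + 1 ≤ wt y) || (decide (h ≤ wt y) && f y)

/-- Slice functions have monotone circuits not much larger than the circuits of `f`. -/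
theorem can_phi {A : Set (β → Bool)} {k h : ℕ} (ψ : β → Fin k → Bool)
    (hA : ∀ i, (fun x => ψ x i) ∈ A) (hk : k = 2 * h) (hh : 1 ≤ h) {S t : ℕ}
    {f : (Fin k → Bool) → Bool} (hf : Comp S t f) :
    Can A (2 * k * k * k + 2 * k * k + 2 * S + 2) 0 {fun x => phi h f (ψ x)} := by
  obtain ⟨N, rfl⟩ : ∃ N, k = N + 1 := ⟨k - 1, by omega⟩
  set G : Fin (N + 1) → Fin N → β → Bool := fun i j x => ψ x (i.succAbove j) with hG
  set ng : Fin (N + 1) → β → Bool := fun i x => decide (h ≤ cnt (G i) x) with hng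
  have h1 : ∀ i, Can A (2 * N * N) 0 {ng i} := by
    intro i
    refine (can_thrs (G i) fun j => hA _).mono subset_rfl le_rfl le_rfl ?_
    rw [Set.singleton_subset_iff]
    exact ⟨h, hh, by omega, rfl⟩
  have h2 := can_iUnion h1
  have h3 := can_thrs (fun (i : Fin (N + 1)) (x : β) => ψ x i) hA
  obtain ⟨s', hs', t', ht', B, hB, hfB⟩ := hf
  have h4 := h2.union h3
  set W : Set (β → Bool) := A ∪ ((⋃ i, {ng i}) ∪ thrs fun (i : Fin (N + 1)) (x : β) => ψ x i)
    with hW
  have hcnt : ∀ i : Fin (N + 1), ∀ x, wt (ψ x) = (if ψ x i = true then 1 else 0) + cnt (G i) x := by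
    intro i x
    unfold wt cnt
    rw [card_filter, card_filter, Fin.sum_univ_succAbove _ i]
  obtain ⟨B', hB', hBB⟩ := hB.double ψ {x | wt (ψ x) = h} (A' := W) (by
    rintro g ⟨i, rfl⟩
    refine ⟨_, Or.inl (hA i), ng i, Or.inr (Or.inl (Set.mem_iUnion.2 ⟨i, rfl⟩)), ?_⟩
    intro x hx
    refine ⟨rfl, ?_⟩
    have h5 := hcnt i x
    replace hx : wt (ψ x) = h := hx
    rw [hx] at h5
    simp only [hng]
    cases hi : ψ x i
    · rw [hi] at h5
      simp at h5
      simp
      omega
    · rw [hi] at h5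
      simp at h5
      simp
      omega)
  obtain ⟨p, hp, _, _, hpe⟩ := hBB f hfB
  have h5 : Can W (2 * S) 0 {p} := ⟨2 * s', by omega, 0, le_rfl, B', hB',
    Set.singleton_subset_iff.2 hp⟩
  set T1 : β → Bool := fun x => decide (h + 1 ≤ wt (ψ x)) with hT1
  set T0 : β → Bool := fun x => decide (h ≤ wt (ψ x)) with hT0
  have hT1m : T1 ∈ W := Or.inr (Or.inr ⟨h + 1, by omega, by omega, rfl⟩)
  have hT0m : T0 ∈ W := Or.inr (Or.inr ⟨h, by omega, by omega, rfl⟩)
  have h6 : Can (W ∪ {p}) 2 0 {fun x => T1 x || (T0 x && p x)} :=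
    (can_and (Or.inl hT0m) (Or.inr rfl)).single (can_or (Or.inl (Or.inl hT1m)) (Or.inr rfl))
  have h7 := h5.single h6
  have e : (fun x => T1 x || (T0 x && p x)) = fun x => phi h f (ψ x) := by
    funext x
    simp only [hT1, hT0, phi]
    by_cases h8 : wt (ψ x) = h
    · rw [(hpe x h8).1]
    · by_cases h9 : h + 1 ≤ wt (ψ x)
      · simp [h9]
      · have h10 : ¬ h ≤ wt (ψ x) := by omega
        simp [h9, h10]
  rw [e] at h7
  refine (h4.single h7).mono subset_rfl ?_ (by omega) subset_rfl
  nlinarith [Nat.zero_le (N * N)]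

/-- Thresholds of computable functions. -/
theorem can_count {A : Set (α → Bool)} {b c t θ : ℕ} {Φ : Fin b → α → Bool}
    (h : ∀ j, Can A c t {Φ j}) (h1 : 1 ≤ θ) (h2 : θ ≤ b) :
    Can A (b * c + 2 * b * b) (b * t) {fun x => decide (θ ≤ cnt Φ x)} := by
  have h3 := can_iUnion h
  refine (h3.single (((can_thrs (A := A ∪ ⋃ j, {Φ j}) Φ ?_)).mono subset_rfl le_rfl le_rfl
    ?_)).mono subset_rfl le_rfl (by omega) subset_rfl
  · intro j
    exact Or.inr (Set.mem_iUnion.2 ⟨j, rfl⟩)
  · rw [Set.singleton_subset_iff]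
    exact ⟨θ, h1, h2, rfl⟩

/-- The window of length `k` of `x` starting at position `o`. -/
def win (k o : ℕ) {m : ℕ} (x : Fin m → Bool) : Fin k → Bool :=
  fun a => if h : o + a < m then x ⟨o + a, h⟩ else false

theorem win_win {k o n p m : ℕ} (h : p + n ≤ k) (x : Fin m → Bool) :
    win n p (win k o x) = win n (o + p) x := by
  funext a
  have ha := a.2
  unfold win
  rw [dif_pos (show p + (a : ℕ) < k by omega)]
  have e : o + (p + (a : ℕ)) = o + p + a := by omega
  by_cases h1 : o + p + (a : ℕ) < m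
  · rw [dif_pos (by simp only; omega), dif_pos h1]
    congr 1
    ext
    exact e
  · rw [dif_neg (by simp only; omega), dif_neg h1]

theorem win_mem_coords {k o m : ℕ} (h : o + k ≤ m) (a : Fin k) :
    (fun x : Fin m → Bool => win k o x a) ∈ coords m := by
  have ha := a.2
  refine ⟨⟨o + a, by omega⟩, ?_⟩
  funext x
  unfold win
  rw [dif_pos (by omega)]

/-- All of `u` consecutive windows are rejected. -/
def allRej (n u : ℕ) (C : (Fin n → Bool) → Bool) {k : ℕ} (y : Fin k → Bool) : Bool :=
  decide (u ≤ cnt (fun (i : Fin u) (y : Fin k → Bool) => !(C (win n (i * n) y))) y)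

theorem allRej_eq_true {n u : ℕ} {C : (Fin n → Bool) → Bool} {k : ℕ} {y : Fin k → Bool} :
    allRej n u C y = true ↔ ∀ i < u, C (win n (i * n) y) = false := by
  unfold allRej
  rw [decide_eq_true_iff]
  constructor
  · intro h i hi
    have h1 : (univ.filter fun i : Fin u => (!(C (win n (i * n) y))) = true) = univ := by
      apply Finset.eq_univ_of_card
      rw [Fintype.card_fin]
      exact le_antisymm ((card_le_univ _).trans (by simp)) h
    have h2 : (⟨i, hi⟩ : Fin u) ∈ (univ.filter fun i : Fin u => (!(C (win n (i * n) y))) = true) := by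
      rw [h1]; exact mem_univ _
    rw [mem_filter] at h2
    simpa using h2.2
  · intro h
    have h1 : (univ.filter fun i : Fin u => (!(C (win n (i * n) y))) = true) = univ := by
      rw [filter_true_of_mem]
      intro i _
      rw [h i i.2]
      rfl
    show u ≤ (univ.filter fun i : Fin u => (!(C (win n (i * n) y))) = true).card
    rw [h1]
    simp

theorem comp_allRej {n u s t k : ℕ} {C : (Fin n → Bool) → Bool} (hC : Comp s t C)
    (hu : 1 ≤ u) (hk : u * n ≤ k) :
    Comp (u * s + 2 * u * u) (u * (t + 1)) (allRej n u C : (Fin k → Bool) → Bool) := by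
  rw [comp_iff] at hC ⊢
  refine can_count ?_ hu le_rfl
  intro i
  have h1 : (i : ℕ) * n + n ≤ k := by
    have := i.2
    nlinarith
  have h2 := hC.map (fun y : Fin k → Bool => win n (i * n) y) (A' := coords k) (by
    rintro _ ⟨a, rfl⟩
    exact win_mem_coords h1 a)
  rw [Set.image_singleton] at h2
  exact (h2.single (can_not (Or.inr rfl))).mono subset_rfl le_rfl le_rfl subset_rfl

end Pool.Agent.H529R2.MF
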